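import Mathlib

set_option autoImplicit false

/-!
# Initial data whose metric is spherically symmetric: definitions and statements

`M` is the set of the points `x ≠ 0` of `ℝ³` with the metric `g = φ⁴ δ`.
-/

namespace Pool.Agent.N795.PI

open Filter Topology MeasureTheory

/-- `ℝ³` -/
abbrev E3 : Type := EuclideanSpace ℝ (Fin 3)

/-- partial derivative -/
noncomputable def pd (i : Fin 3) (u : E3 → ℝ) (x : E3) : ℝ :=
  fderiv ℝ u x (EuclideanSpace.single i (1 : ℝ))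

/-- a radial function -/
noncomputable def rad (f : ℝ → ℝ) : E3 → ℝ := fun x => f ‖x‖

/-- scalar curvature of the metric `φ⁴ δ` -/
noncomputable def scal (φ : E3 → ℝ) (x : E3) : ℝ := -8 * (∑ i, pd i (pd i φ) x) / φ x ^ 5

/-- Euclidean trace of a 2-tensor -/
noncomputable def trE (h : Fin 3 → Fin 3 → E3 → ℝ) (x : E3) : ℝ := ∑ i, h i i x

/-- trace with respect to `φ⁴ δ` -/
noncomputable def trG (φ : E3 → ℝ) (h : Fin 3 → Fin 3 → E3 → ℝ) (x : E3) : ℝ :=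
  trE h x / φ x ^ 4

/-- `|h|²` with respect to `φ⁴ δ` -/
noncomputable def normSqG (φ : E3 → ℝ) (h : Fin 3 → Fin 3 → E3 → ℝ) (x : E3) : ℝ :=
  (∑ i, ∑ j, h i j x ^ 2) / φ x ^ 8

/-- energy density -/
noncomputable def mu (φ : E3 → ℝ) (h : Fin 3 → Fin 3 → E3 → ℝ) (x : E3) : ℝ :=
  (scal φ x - normSqG φ h x + trG φ h x ^ 2) / 2

/-- divergence of `h` with respect to `φ⁴ δ` (component `j`) -/
noncomputable def divG (φ : E3 → ℝ) (h : Fin 3 → Fin 3 → E3 → ℝ) (j : Fin 3) (x : E3) : ℝ :=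
  (∑ i, pd i (h i j) x + 2 / φ x * ∑ i, pd i φ x * h i j x
    - 2 / φ x * pd j φ x * trE h x) / φ x ^ 4

/-- momentum density: `J = div h - d (tr h)` -/
noncomputable def J (φ : E3 → ℝ) (h : Fin 3 → Fin 3 → E3 → ℝ) (j : Fin 3) (x : E3) : ℝ :=
  divG φ h j x - pd j (trG φ h) x

/-- `|J|` with respect to `φ⁴ δ` -/
noncomputable def normJ (φ : E3 → ℝ) (h : Fin 3 → Fin 3 → E3 → ℝ) (x : E3) : ℝ :=
  Real.sqrt (∑ j, J φ h j x ^ 2) / φ x ^ 2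

/-- radial-radial component of `h` (Euclidean unit normal) -/
noncomputable def lam (h : Fin 3 → Fin 3 → E3 → ℝ) (x : E3) : ℝ :=
  (∑ i, ∑ j, h i j x * x i * x j) / ‖x‖ ^ 2

/-- trace of `h` over the sphere of symmetry through `x` (metric `φ⁴ δ`) -/
noncomputable def trS (φ : E3 → ℝ) (h : Fin 3 → Fin 3 → E3 → ℝ) (x : E3) : ℝ :=
  (trE h x - lam h x) / φ x ^ 4

/-- tangential part of `h(x, ·)` -/
noncomputable def tanV (h : Fin 3 → Fin 3 → E3 → ℝ) (i : Fin 3) (x : E3) : ℝ :=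
  ∑ j, h i j x * x j - lam h x * x i

/-- its (Euclidean) divergence -/
noncomputable def divV (h : Fin 3 → Fin 3 → E3 → ℝ) (x : E3) : ℝ := ∑ i, pd i (tanV h i) x

/-- smooth positive radial conformal factor -/
def SmoothRad (f : ℝ → ℝ) : Prop := ∀ t : ℝ, 0 < t → 0 < f t ∧ ContDiffAt ℝ 2 f t

/-- smooth symmetric tensor on `x ≠ 0` -/
def SmoothTen (h : Fin 3 → Fin 3 → E3 → ℝ) : Prop :=
  (∀ i j x, h i j x = h j i x) ∧ ∀ i j x, x ≠ 0 → ContDiffAt ℝ 1 (h i j) x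

/-- RAD: derivatives of a radial function -/
def Rad : Prop :=
  ∀ f : ℝ → ℝ, SmoothRad f → ∀ x : E3, x ≠ 0 →
    (∀ i, pd i (rad f) x = deriv f ‖x‖ * x i / ‖x‖) ∧
    ∑ i, pd i (pd i (rad f)) x = deriv (deriv f) ‖x‖ + 2 * deriv f ‖x‖ / ‖x‖

/-- ALG -/
def Alg : Prop :=
  ∀ (A : Fin 3 → Fin 3 → ℝ) (x : E3), x ≠ 0 →
    ((∑ i, ∑ j, A i j * x i * x j) / ‖x‖ ^ 2) ^ 2
      + ((∑ i, A i i) - (∑ i, ∑ j, A i j * x i * x j) / ‖x‖ ^ 2) ^ 2 / 2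
      ≤ ∑ i, ∑ j, A i j ^ 2

/-- JNU: the radial component of the momentum density -/
def Jnu : Prop :=
  ∀ (f : ℝ → ℝ) (h : Fin 3 → Fin 3 → E3 → ℝ), SmoothRad f → SmoothTen h →
    ∀ x : E3, x ≠ 0 →
      DifferentiableAt ℝ (trS (rad f) h) x ∧
      ∑ j, J (rad f) h j x * x j
        = - fderiv ℝ (trS (rad f) h) x x
          + (2 * (lam h x / f ‖x‖ ^ 4) - trS (rad f) h x) * (1 + 2 * ‖x‖ * deriv f ‖x‖ / f ‖x‖)
          + divV h x / f ‖x‖ ^ 4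

/-- ODE: the one dimensional argument -/
def Ode : Prop :=
  ∀ (f p : ℝ → ℝ) (m : ℝ), SmoothRad f → (∀ t : ℝ, 0 < t → DifferentiableAt ℝ p t) →
    (∀ t : ℝ, 0 < t → ∃ q μ Jn : ℝ, |Jn| ≤ μ ∧
      2 * μ ≤ -8 * (deriv (deriv f) t + 2 * deriv f t / t) / f t ^ 5 + 2 * q * p t + p t ^ 2 / 2 ∧
      0 ≤ p t * (deriv p t
        - ((2 * q - p t) * (1 / t + 2 * deriv f t / f t) - f t ^ 2 * Jn))) →
    Tendsto (fun t => t * f t ^ 2) (𝓝[>] 0) atTop →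
    Tendsto f atTop (𝓝 1) →
    Tendsto (fun t => -2 * t ^ 2 * f t ^ 3 * deriv f t) atTop (𝓝 m) →
    Tendsto (fun t => t ^ 3 * p t ^ 2) atTop (𝓝 0) →
    ∃ t1 : ℝ, 0 < t1 ∧
      (∀ t, t1 < t → t * f t ^ 2 * |p t| < 2 * (1 + 2 * t * deriv f t / f t)) ∧
      t1 * f t1 ^ 2 / 2 ≤ m

/-- the flux of the ADM energy through the sphere of radius `t` of the end `|x| → ∞` -/
noncomputable def admFlux (φ : E3 → ℝ) (t : ℝ) : ℝ :=
  1 / (16 * Real.pi) * ∫ w : Metric.sphere (0 : E3) 1,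
    t ^ 2 * ∑ i, ∑ j, (pd i (fun y => if i = j then φ y ^ 4 else 0) (t • (w : E3))
      - pd j (fun y => φ y ^ 4) (t • (w : E3))) * (w : E3) j ∂(volume : Measure E3).toSphere

/-- ADM -/
def Adm : Prop :=
  ∀ f : ℝ → ℝ, SmoothRad f → ∀ t : ℝ, 0 < t →
    admFlux (rad f) t = -2 * t ^ 2 * f t ^ 3 * deriv f t

/-- MC: mean curvature comparison at a point of the level set `F = 0` at maximal distance -/
def Mc : Prop :=
  ∀ (F : E3 → ℝ) (x : E3), x ≠ 0 → ContDiffAt ℝ 2 F x → F x = 0 → fderiv ℝ F x ≠ 0 →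
    (∀ y : E3, ‖x‖ ≤ ‖y‖ → 0 ≤ F y) →
      (∀ i, pd i F x / Real.sqrt (∑ k, pd k F x ^ 2) = x i / ‖x‖) ∧
      2 / ‖x‖ ≤ ∑ i, pd i (fun y => pd i F y / Real.sqrt (∑ k, pd k F y ^ 2)) x

end Pool.Agent.N795.PI
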