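import Pool.Agent.N795.PI.Stm

set_option autoImplicit false

namespace Pool.Agent.N795.PI

open Filter Topology MeasureTheory

/-- expansion scalar `w = dr/ds` of the spheres of symmetry -/
noncomputable def ww (f : ℝ → ℝ) (t : ℝ) : ℝ := 1 + 2 * t * deriv f t / f t

theorem cs (a : Fin 3 → ℝ) (x : E3) : |∑ j, a j * x j| ≤ Real.sqrt (∑ j, a j ^ 2) * ‖x‖ := by
  rw [EuclideanSpace.norm_eq, ← Real.sqrt_mul (Finset.sum_nonneg fun _ _ => sq_nonneg _)]
  apply Real.abs_le_sqrt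
  have h := Finset.sum_mul_sq_le_sq_mul_sq Finset.univ a (fun j => x j)
  simpa [Real.norm_eq_abs, sq_abs] using h

/-- The pointwise input of the one dimensional argument. -/
theorem pointwise (hR : Rad) (hA : Alg) (hJ : Jnu) {f : ℝ → ℝ} {h : Fin 3 → Fin 3 → E3 → ℝ}
    (hf : SmoothRad f) (hh : SmoothTen h) {x : E3} (hx : x ≠ 0)
    (dec : normJ (rad f) h x ≤ mu (rad f) h x) (t d : ℝ) (ht : ‖x‖ = t)
    (hd : 0 ≤ trS (rad f) h x * (d - fderiv ℝ (trS (rad f) h) x x / t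
      + divV h x / (t * f t ^ 4))) :
    ∃ q μ Jn : ℝ, |Jn| ≤ μ ∧
      2 * μ ≤ -8 * (deriv (deriv f) t + 2 * deriv f t / t) / f t ^ 5
        + 2 * q * trS (rad f) h x + trS (rad f) h x ^ 2 / 2 ∧
      0 ≤ trS (rad f) h x * (d
        - ((2 * q - trS (rad f) h x) * (1 / t + 2 * deriv f t / f t) - f t ^ 2 * Jn)) := by
  have htpos : 0 < t := by rw [← ht]; exact norm_pos_iff.2 hx
  have hfp : 0 < f t := (hf t htpos).1
  have hrad : rad f x = f t := by rw [rad, ht]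
  refine ⟨lam h x / f t ^ 4, mu (rad f) h x, (∑ j, J (rad f) h j x * x j) / (t * f t ^ 2), ?_, ?_, ?_⟩
  · refine le_trans ?_ dec
    rw [normJ, abs_div, abs_of_pos (by positivity : 0 < t * f t ^ 2), hrad,
      div_le_div_iff₀ (by positivity) (by positivity)]
    have h1 := cs (fun j => J (rad f) h j x) x
    rw [ht] at h1
    nlinarith [mul_le_mul_of_nonneg_right h1 (by positivity : 0 ≤ f t ^ 2)]
  · have h1 := hA (fun i j => h i j x) x hx
    have h2 : scal (rad f) x = -8 * (deriv (deriv f) t + 2 * deriv f t / t) / f t ^ 5 := by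
      rw [scal, (hR f hf x hx).2, hrad, ht]
    have h3 : normSqG (rad f) h x = (∑ i, ∑ j, h i j x ^ 2) / f t ^ 8 := by rw [normSqG, hrad]
    have h4 : trG (rad f) h x = trE h x / f t ^ 4 := by rw [trG, hrad]
    have h5 : trS (rad f) h x = (trE h x - lam h x) / f t ^ 4 := by rw [trS, hrad]
    have h6 : lam h x ^ 2 + (trE h x - lam h x) ^ 2 / 2 ≤ ∑ i, ∑ j, h i j x ^ 2 := by
      simpa [lam, trE] using h1
    have h7 : (lam h x ^ 2 + (trE h x - lam h x) ^ 2 / 2) / f t ^ 8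
        ≤ (∑ i, ∑ j, h i j x ^ 2) / f t ^ 8 := by gcongr
    have h8 : 2 * mu (rad f) h x = scal (rad f) x - normSqG (rad f) h x + trG (rad f) h x ^ 2 := by
      rw [mu]; ring
    rw [h8, h2, h3, h4, h5]
    have h9 : (trE h x / f t ^ 4) ^ 2 - (lam h x ^ 2 + (trE h x - lam h x) ^ 2 / 2) / f t ^ 8
        = 2 * (lam h x / f t ^ 4) * ((trE h x - lam h x) / f t ^ 4)
          + ((trE h x - lam h x) / f t ^ 4) ^ 2 / 2 := by
      field_simp
      ring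
    linarith
  · have h1 := (hJ f h hf hh x hx).2
    rw [ht] at h1
    have h2 : d - ((2 * (lam h x / f t ^ 4) - trS (rad f) h x) * (1 / t + 2 * deriv f t / f t)
        - f t ^ 2 * ((∑ j, J (rad f) h j x * x j) / (t * f t ^ 2)))
        = d - fderiv ℝ (trS (rad f) h) x x / t + divV h x / (t * f t ^ 4) := by
      rw [h1]
      field_simp
      ring
    rw [h2]
    exact hd

/-- Data of this project: the metric `φ⁴ δ` on `x ≠ 0` with `φ(x) = f(|x|)`, a second fundamental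
form `h`, one asymptotically flat end `|x| → ∞` of total mass `m`. -/
structure IsData (f : ℝ → ℝ) (h : Fin 3 → Fin 3 → E3 → ℝ) (m : ℝ) : Prop where
  /-- positive -/
  pos : ∀ t : ℝ, 0 < t → 0 < f t
  /-- smooth metric -/
  smooth : ∀ t : ℝ, 0 < t → ContDiffAt ℝ ((⊤ : ℕ∞) : WithTop ℕ∞) f t
  /-- `h` is symmetric -/
  symm : ∀ i j x, h i j x = h j i x
  /-- `h` is smooth -/
  smoothH : ∀ i j x, x ≠ 0 → ContDiffAt ℝ ((⊤ : ℕ∞) : WithTop ℕ∞) (h i j) x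
  /-- dominant energy condition -/
  dec : ∀ x, x ≠ 0 → normJ (rad f) h x ≤ mu (rad f) h x
  /-- asymptotic flatness of `g` -/
  endG : ∃ C : ℝ, ∀ t : ℝ, 1 ≤ t → |f t - 1| ≤ C / t ∧ |deriv f t| ≤ C / t ^ 2
  /-- asymptotic flatness of `h` -/
  endH : ∃ C : ℝ, ∀ x : E3, 1 ≤ ‖x‖ → ∀ i j, |h i j x| ≤ C / ‖x‖ ^ 2
  /-- the total mass -/
  mass : Tendsto (admFlux (rad f)) atTop (𝓝 m)

theorem IsData.smoothRad {f : ℝ → ℝ} {h : Fin 3 → Fin 3 → E3 → ℝ} {m : ℝ}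
    (D : IsData f h m) : SmoothRad f := fun t ht =>
  ⟨D.pos t ht, (D.smooth t ht).of_le
    (show ((2 : ℕ∞) : WithTop ℕ∞) ≤ ((⊤ : ℕ∞) : WithTop ℕ∞) from WithTop.coe_le_coe.2 le_top)⟩

theorem IsData.smoothTen {f : ℝ → ℝ} {h : Fin 3 → Fin 3 → E3 → ℝ} {m : ℝ}
    (D : IsData f h m) : SmoothTen h :=
  ⟨D.symm, fun i j x hx => (D.smoothH i j x hx).of_le (by exact_mod_cast (le_top : (1 : ℕ∞) ≤ ⊤))⟩

theorem IsData.tendsto_one {f : ℝ → ℝ} {h : Fin 3 → Fin 3 → E3 → ℝ} {m : ℝ}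
    (D : IsData f h m) : Tendsto f atTop (𝓝 1) := by
  obtain ⟨C, hC⟩ := D.endG
  rw [tendsto_iff_norm_sub_tendsto_zero]
  have h1 : Tendsto (fun t : ℝ => C / t) atTop (𝓝 0) := tendsto_const_nhds.div_atTop tendsto_id
  refine squeeze_zero' (Eventually.of_forall fun _ => norm_nonneg _) ?_ h1
  filter_upwards [eventually_ge_atTop 1] with t ht
  exact (hC t ht).1

theorem IsData.bound {f : ℝ → ℝ} {h : Fin 3 → Fin 3 → E3 → ℝ} {m : ℝ}
    (D : IsData f h m) : ∃ K T : ℝ, 0 ≤ K ∧ 1 ≤ T ∧ ∀ x : E3, T ≤ ‖x‖ →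
      |trS (rad f) h x| ≤ K / ‖x‖ ^ 2 := by
  obtain ⟨C, hC⟩ := D.endH
  have h1 : ∀ᶠ t in atTop, 1 / 2 < f t := D.tendsto_one.eventually (lt_mem_nhds (by norm_num))
  obtain ⟨T0, hT0⟩ := eventually_atTop.1 h1
  have hC0 : 0 ≤ C := by
    have h2 := hC (EuclideanSpace.single 0 1) (by simp) 0 0
    simp only [PiLp.norm_single, norm_one, one_pow, div_one] at h2
    exact le_trans (abs_nonneg _) h2
  refine ⟨12 * C * 16, max T0 1, by positivity, le_max_right _ _, fun x hx => ?_⟩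
  have hx1 : 1 ≤ ‖x‖ := le_trans (le_max_right _ _) hx
  have hxp : 0 < ‖x‖ := by linarith
  have hf : 1 / 2 < f ‖x‖ := hT0 _ (le_trans (le_max_left _ _) hx)
  have hb := hC x hx1
  have hxi : ∀ i, |x i| ≤ ‖x‖ := fun i => by
    have := EuclideanSpace.norm_eq x
    have h3 : x i ^ 2 ≤ ‖x‖ ^ 2 := by
      rw [EuclideanSpace.norm_sq_eq]
      have := Finset.single_le_sum (f := fun i => ‖x i‖ ^ 2) (fun i _ => sq_nonneg _)
        (Finset.mem_univ i)
      simpa [Real.norm_eq_abs, sq_abs] using this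
    exact abs_le_of_sq_le_sq h3 hxp.le
  have h4 : |trE h x| ≤ 3 * (C / ‖x‖ ^ 2) := by
    rw [trE]
    refine (Finset.abs_sum_le_sum_abs _ _).trans ?_
    calc ∑ i, |h i i x| ≤ ∑ _i : Fin 3, C / ‖x‖ ^ 2 := Finset.sum_le_sum fun i _ => hb i i
      _ = 3 * (C / ‖x‖ ^ 2) := by simp
  have h5 : |lam h x| ≤ 9 * (C / ‖x‖ ^ 2) := by
    rw [lam, abs_div, abs_of_pos (by positivity : 0 < ‖x‖ ^ 2), div_le_iff₀ (by positivity)]
    refine (Finset.abs_sum_le_sum_abs _ _).trans ?_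
    calc ∑ i, |∑ j, h i j x * x i * x j| ≤ ∑ _i : Fin 3, 3 * (C / ‖x‖ ^ 2 * ‖x‖ ^ 2) := by
          refine Finset.sum_le_sum fun i _ => (Finset.abs_sum_le_sum_abs _ _).trans ?_
          calc ∑ j, |h i j x * x i * x j| ≤ ∑ _j : Fin 3, C / ‖x‖ ^ 2 * ‖x‖ ^ 2 := by
                refine Finset.sum_le_sum fun j _ => ?_
                rw [abs_mul, abs_mul]
                calc |h i j x| * |x i| * |x j| ≤ C / ‖x‖ ^ 2 * ‖x‖ * ‖x‖ := by
                      gcongr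
                      · exact hb i j
                      · exact hxi i
                      · exact hxi j
                  _ = C / ‖x‖ ^ 2 * ‖x‖ ^ 2 := by ring
            _ = 3 * (C / ‖x‖ ^ 2 * ‖x‖ ^ 2) := by simp
      _ = 9 * (C / ‖x‖ ^ 2) * ‖x‖ ^ 2 := by
          simp
          ring
  have h6 : (1 : ℝ) / 16 ≤ f ‖x‖ ^ 4 := by
    have : ((1 : ℝ) / 2) ^ 4 ≤ f ‖x‖ ^ 4 := pow_le_pow_left₀ (by norm_num) hf.le 4
    norm_num at this ⊢
    exact this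
  rw [trS, abs_div, rad, abs_of_pos (by positivity : 0 < f ‖x‖ ^ 4), div_le_iff₀ (by positivity)]
  calc |trE h x - lam h x| ≤ |trE h x| + |lam h x| := abs_sub _ _
    _ ≤ 12 * (C / ‖x‖ ^ 2) := by linarith
    _ = 12 * C * 16 / ‖x‖ ^ 2 * (1 / 16) := by ring
    _ ≤ 12 * C * 16 / ‖x‖ ^ 2 * f ‖x‖ ^ 4 := by gcongr

theorem tendsto_cube {p : ℝ → ℝ} {K T : ℝ} (hK : 0 ≤ K) (hT : 1 ≤ T)
    (hp : ∀ t, T ≤ t → |p t| ≤ K / t ^ 2) : Tendsto (fun t => t ^ 3 * p t ^ 2) atTop (𝓝 0) := by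
  have h1 : Tendsto (fun t : ℝ => K ^ 2 / t) atTop (𝓝 0) := tendsto_const_nhds.div_atTop tendsto_id
  refine squeeze_zero' ?_ ?_ h1
  · filter_upwards [eventually_ge_atTop T] with t ht
    have : 0 < t := by linarith
    positivity
  · filter_upwards [eventually_ge_atTop T] with t ht
    have ht0 : 0 < t := by linarith
    have h2 : p t ^ 2 ≤ (K / t ^ 2) ^ 2 := by
      rw [← sq_abs (p t)]
      exact pow_le_pow_left₀ (abs_nonneg _) (hp t ht) 2
    calc t ^ 3 * p t ^ 2 ≤ t ^ 3 * (K / t ^ 2) ^ 2 := by gcongr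
      _ = K ^ 2 / t := by field_simp

theorem IsData.mass' (hAdm : Adm) {f : ℝ → ℝ} {h : Fin 3 → Fin 3 → E3 → ℝ} {m : ℝ}
    (D : IsData f h m) : Tendsto (fun t => -2 * t ^ 2 * f t ^ 3 * deriv f t) atTop (𝓝 m) := by
  refine D.mass.congr' ?_
  filter_upwards [eventually_gt_atTop 0] with t ht
  exact hAdm f D.smoothRad t ht

/-- A path of points `x(t)`, `|x(t)| = t`, along which the mass aspect is monotone: `p(t)` is a
value of `tr_S h` on the sphere `|x| = t`. -/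
def HasPath (f : ℝ → ℝ) (h : Fin 3 → Fin 3 → E3 → ℝ) (p : ℝ → ℝ) : Prop :=
  (∀ t : ℝ, 0 < t → DifferentiableAt ℝ p t) ∧ ∀ t : ℝ, 0 < t → ∃ x : E3, ‖x‖ = t ∧
    trS (rad f) h x = p t ∧ 0 ≤ p t * (deriv p t - fderiv ℝ (trS (rad f) h) x x / t
      + divV h x / (t * f t ^ 4))

theorem path_thm (hR : Rad) (hA : Alg) (hJ : Jnu) (hO : Ode) (hAdm : Adm)
    {f : ℝ → ℝ} {h : Fin 3 → Fin 3 → E3 → ℝ} {m : ℝ} (D : IsData f h m)
    (hinner : Tendsto (fun t => t * f t ^ 2) (𝓝[>] 0) atTop)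
    {p : ℝ → ℝ} (hp : HasPath f h p) :
    ∃ t1 : ℝ, 0 < t1 ∧ (∀ t, t1 < t → t * f t ^ 2 * |p t| < 2 * ww f t) ∧
      t1 * f t1 ^ 2 / 2 ≤ m := by
  obtain ⟨K, T, hK, hT, hb⟩ := D.bound
  refine hO f p m D.smoothRad hp.1 ?_ hinner D.tendsto_one (D.mass' hAdm) ?_
  · intro t ht
    obtain ⟨x, hx, hP, hd⟩ := hp.2 t ht
    have hx0 : x ≠ 0 := by
      rintro rfl
      rw [norm_zero] at hx
      linarith
    rw [← hP] at hd ⊢
    exact pointwise hR hA hJ D.smoothRad D.smoothTen hx0 (D.dec x hx0) t (deriv p t) hx hd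
  · refine tendsto_cube hK hT fun t ht => ?_
    obtain ⟨x, hx, hP, -⟩ := hp.2 t (by linarith)
    rw [← hP, ← hx]
    exact hb x (by rw [hx]; exact ht)

/-- a ray -/
theorem hasPath_ray (hJ : Jnu) {f : ℝ → ℝ} {h : Fin 3 → Fin 3 → E3 → ℝ} {m : ℝ}
    (D : IsData f h m) {u : E3} (hu : ‖u‖ = 1)
    (hray : ∀ t : ℝ, 0 < t → 0 ≤ trS (rad f) h (t • u) * divV h (t • u)) :
    HasPath f h (fun t => trS (rad f) h (t • u)) := by
  have hne : ∀ t : ℝ, 0 < t → t • u ≠ 0 := fun t ht => by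
    rw [Ne, smul_eq_zero, not_or]
    refine ⟨ht.ne', ?_⟩
    rintro rfl
    simp at hu
  have hder : ∀ t : ℝ, 0 < t → HasDerivAt (fun t : ℝ => trS (rad f) h (t • u))
      (fderiv ℝ (trS (rad f) h) (t • u) u) t := by
    intro t ht
    have h1 := (hJ f h D.smoothRad D.smoothTen (t • u) (hne t ht)).1.hasFDerivAt
    have h2 : HasDerivAt (fun t : ℝ => t • u) ((1 : ℝ) • u) t := (hasDerivAt_id t).smul_const u
    have h3 := h1.comp_hasDerivAt t h2
    rw [one_smul] at h3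
    exact h3
  refine ⟨fun t ht => (hder t ht).differentiableAt, fun t ht => ⟨t • u, ?_, rfl, ?_⟩⟩
  · rw [norm_smul, hu, mul_one, Real.norm_eq_abs, abs_of_pos ht]
  · rw [(hder t ht).deriv]
    have h1 : fderiv ℝ (trS (rad f) h) (t • u) (t • u) / t
        = fderiv ℝ (trS (rad f) h) (t • u) u := by
      rw [map_smul, smul_eq_mul]
      field_simp
    rw [h1, sub_self, zero_add]
    have hf := D.pos t ht
    have h2 := div_nonneg (hray t ht) (by positivity : 0 ≤ t * f t ^ 4)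
    calc 0 ≤ trS (rad f) h (t • u) * divV h (t • u) / (t * f t ^ 4) := h2
      _ = trS (rad f) h (t • u) * (divV h (t • u) / (t * f t ^ 4)) := by ring

/-- zeros -/
theorem hasPath_zero {f : ℝ → ℝ} {h : Fin 3 → Fin 3 → E3 → ℝ}
    (hz : ∀ t : ℝ, 0 < t → ∃ x : E3, ‖x‖ = t ∧ trS (rad f) h x = 0) :
    HasPath f h (fun _ => 0) := by
  refine ⟨fun t _ => differentiableAt_const _, fun t ht => ?_⟩
  obtain ⟨x, hx, hP⟩ := hz t ht
  exact ⟨x, hx, hP, by simp⟩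

theorem final_A {r m A : ℝ} (hr : 0 < r) (h : r / 2 ≤ m) (hA : A ≤ 4 * Real.pi * r ^ 2) :
    Real.sqrt (A / (16 * Real.pi)) ≤ m := by
  apply Real.sqrt_le_iff.2
  refine ⟨by linarith, ?_⟩
  rw [div_le_iff₀ (by positivity)]
  have : r ^ 2 ≤ 4 * m ^ 2 := by nlinarith
  nlinarith [Real.pi_pos]

end Pool.Agent.N795.PI
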