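import Pool.Agent.N795.PI.Main

set_option autoImplicit false

/-!
# Apparent horizons: statements
-/

namespace Pool.Agent.N795.PI

open Filter Topology MeasureTheory

/-- the Euclidean unit normal of the level sets of `F` -/
noncomputable def nor (F : E3 → ℝ) (i : Fin 3) (x : E3) : ℝ :=
  pd i F x / Real.sqrt (∑ k, pd k F x ^ 2)

/-- mean curvature of the level set of `F` through `x` for the metric `φ⁴ δ` (divergence of the
unit normal pointing to increasing `F`) -/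
noncomputable def meanCurv (φ F : E3 → ℝ) (x : E3) : ℝ :=
  (∑ i, pd i (fun y => φ y ^ 4 * nor F i y) x) / φ x ^ 6

/-- trace of `h` over the level set of `F` through `x` for the metric `φ⁴ δ` -/
noncomputable def trLevel (φ : E3 → ℝ) (h : Fin 3 → Fin 3 → E3 → ℝ) (F : E3 → ℝ) (x : E3) : ℝ :=
  trG φ h x - (∑ i, ∑ j, h i j x * nor F i x * nor F j x) / φ x ^ 4

/-- the points `x ≠ 0` where the sphere of symmetry is not untrapped -/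
def trapped (f : ℝ → ℝ) (h : Fin 3 → Fin 3 → E3 → ℝ) : Set E3 :=
  {x | x ≠ 0 ∧ 2 * ww f ‖x‖ ≤ ‖x‖ * f ‖x‖ ^ 2 * |trS (rad f) h x|}

/-- ODES: the one dimensional argument from a given radius on -/
def OdeS : Prop :=
  ∀ (f p : ℝ → ℝ) (m t1 : ℝ), SmoothRad f → 0 < t1 → (∀ t : ℝ, 0 < t → DifferentiableAt ℝ p t) →
    (∀ t : ℝ, t1 < t → ∃ q μ Jn : ℝ, |Jn| ≤ μ ∧
      2 * μ ≤ -8 * (deriv (deriv f) t + 2 * deriv f t / t) / f t ^ 5 + 2 * q * p t + p t ^ 2 / 2 ∧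
      0 ≤ p t * (deriv p t
        - ((2 * q - p t) * (1 / t + 2 * deriv f t / f t) - f t ^ 2 * Jn))) →
    Tendsto f atTop (𝓝 1) →
    Tendsto (fun t => -2 * t ^ 2 * f t ^ 3 * deriv f t) atTop (𝓝 m) →
    Tendsto (fun t => t ^ 3 * p t ^ 2) atTop (𝓝 0) →
    2 * ww f t1 ≤ t1 * f t1 ^ 2 * |p t1| →
    (∀ t, t1 < t → t * f t ^ 2 * |p t| < 2 * ww f t) →
    t1 * f t1 ^ 2 / 2 ≤ m

/-- FAR: the farthest zero -/
def Far : Prop :=
  ∀ F : E3 → ℝ, (∀ x, x ≠ 0 → ContinuousAt F x) → (∃ x, x ≠ 0 ∧ F x = 0) →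
    (∃ ρ : ℝ, ∀ x, ρ ≤ ‖x‖ → 0 < F x) →
      ∃ x, x ≠ 0 ∧ F x = 0 ∧ (∀ y, ‖x‖ ≤ ‖y‖ → 0 ≤ F y) ∧ ∀ y, ‖x‖ < ‖y‖ → 0 < F y

/-- KMAX: the farthest trapped point -/
def Kmax : Prop :=
  ∀ (f : ℝ → ℝ) (h : Fin 3 → Fin 3 → E3 → ℝ) (m : ℝ), IsData f h m →
    Tendsto (fun t => -2 * t ^ 2 * f t ^ 3 * deriv f t) atTop (𝓝 m) →
    (∀ x, x ≠ 0 → ContinuousAt (trS (rad f) h) x) → (trapped f h).Nonempty →
      ∃ x ∈ trapped f h, ∀ y, ‖x‖ < ‖y‖ → y ∉ trapped f h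

end Pool.Agent.N795.PI
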